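import Mathlib

/-!
# The positive part of U_q(affine sl_2), presented by the q-Serre relations

`t` plays the role of `q ^ 2`.
-/

namespace Run7.h827

universe u v

variable (K : Type u) [Field K] (t : K)

/-- The coefficient `t + 1 + t⁻¹`, i.e. `[3]_q` for `t = q ^ 2`. -/
def three : K := t + 1 + t⁻¹

/-- The (left-hand side of the) cubic q-Serre relation for two elements `a`, `b` of an algebra,
with coefficient `c`. -/
def serreExpr {K : Type u} [Field K] {A : Type v} [Ring A] [Algebra K A] (c : K) (a b : A) : A :=
  a ^ 3 * b - c • (a ^ 2 * b * a) + c • (a * b * a ^ 2) - b * a ^ 3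

/-- The two cubic q-Serre relations. -/
inductive SRel (c : K) : FreeAlgebra K Bool → FreeAlgebra K Bool → Prop
  | serre (i : Bool) : SRel c (serreExpr c (FreeAlgebra.ι K i) (FreeAlgebra.ι K (!i))) 0

/-- The algebra with two generators and the two cubic q-Serre relations (coefficient `c`). -/
def U (c : K) : Type u := RingQuot (SRel K c)

noncomputable instance (c : K) : Ring (U K c) := inferInstanceAs (Ring (RingQuot (SRel K c)))

noncomputable instance (c : K) : Algebra K (U K c) :=
  inferInstanceAs (Algebra K (RingQuot (SRel K c)))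

end Run7.h827

namespace Run7.h827.U

universe u v

variable {K : Type u} [Field K] {c : K}

/-- The quotient map. -/
noncomputable def mk : FreeAlgebra K Bool →ₐ[K] U K c := RingQuot.mkAlgHom K (SRel K c)

theorem mk_surjective : Function.Surjective (mk : FreeAlgebra K Bool →ₐ[K] U K c) :=
  RingQuot.mkAlgHom_surjective K (SRel K c)

/-- The generators. -/
noncomputable def X (i : Bool) : U K c := mk (FreeAlgebra.ι K i)

theorem serre (i : Bool) : serreExpr c (X i : U K c) (X (!i)) = 0 := by
  have h : (mk (serreExpr c (FreeAlgebra.ι K i) (FreeAlgebra.ι K (!i))) : U K c) = mk 0 :=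
    RingQuot.mkAlgHom_rel K (SRel.serre (K := K) (c := c) i)
  simpa [serreExpr, X] using h

/-- Universal property. -/
noncomputable def lift {A : Type v} [Ring A] [Algebra K A] (f : Bool → A)
    (h : ∀ i, serreExpr c (f i) (f (!i)) = 0) : U K c →ₐ[K] A :=
  RingQuot.liftAlgHom K ⟨FreeAlgebra.lift K f, by
    intro x y hxy
    cases hxy with
    | serre i =>
      have := h i
      simpa [serreExpr] using this⟩

@[simp] theorem lift_X {A : Type v} [Ring A] [Algebra K A] (f : Bool → A)
    (h : ∀ i, serreExpr c (f i) (f (!i)) = 0) (i : Bool) : lift f h (X i) = f i := by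
  have : ∀ x, lift f h (mk x) = FreeAlgebra.lift K f x := fun x =>
    RingQuot.liftAlgHom_mkAlgHom_apply K _ _ _
  rw [X, this, FreeAlgebra.lift_ι_apply]

/-- Induction: a subspace containing `1` and stable under left multiplication by the generators is
everything. -/
theorem sub_eq_top (M : Submodule K (U K c)) (h1 : (1 : U K c) ∈ M)
    (hX : ∀ i, ∀ m ∈ M, X i * m ∈ M) : M = ⊤ := by
  have key : ∀ a : FreeAlgebra K Bool, ∀ m ∈ M, (mk a : U K c) * m ∈ M := by
    intro a
    induction a using FreeAlgebra.induction with
    | grade0 r =>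
      intro m hm
      rw [AlgHom.commutes, ← Algebra.smul_def]
      exact M.smul_mem r hm
    | grade1 x => exact fun m hm => hX x m hm
    | mul a b ha hb =>
      intro m hm
      rw [map_mul, mul_assoc]
      exact ha _ (hb m hm)
    | add a b ha hb =>
      intro m hm
      rw [map_add, add_mul]
      exact M.add_mem (ha m hm) (hb m hm)
  rw [eq_top_iff]
  intro x _
  obtain ⟨a, rfl⟩ := mk_surjective x
  have := key a 1 h1
  simpa using this

theorem induction_left {P : U K c → Prop} (h1 : P 1) (hX : ∀ i v, P v → P (X i * v))
    (hadd : ∀ u v, P u → P v → P (u + v)) (hsmul : ∀ (r : K) u, P u → P (r • u)) (u : U K c) :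
    P u := by
  let M : Submodule K (U K c) :=
    { carrier := {u | P u}
      add_mem' := fun {a b} ha hb => hadd a b ha hb
      zero_mem' := by
        have := hsmul 0 1 h1
        simpa using this
      smul_mem' := fun r x hx => hsmul r x hx }
  have : M = ⊤ := sub_eq_top M h1 (fun i m hm => hX i m hm)
  have h : u ∈ M := this ▸ Submodule.mem_top
  exact h

theorem linearMap_ext {V : Type v} [AddCommGroup V] [Module K V] {f g : U K c →ₗ[K] V}
    (h1 : f 1 = g 1) (hX : ∀ i v, f v = g v → f (X i * v) = g (X i * v)) : f = g := by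
  ext u
  refine induction_left (P := fun u => f u = g u) h1 hX ?_ ?_ u
  · intro u v hu hv; simp [hu, hv]
  · intro r u hu; simp [hu]

end Run7.h827.U
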