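import Pool.Agent.Run7.h827.UCoprod

namespace Run7.h827.U

open TensorProduct

universe u v

set_option linter.all false
set_option linter.unusedSimpArgs false

variable {K : Type u} [Field K] {t : K}

/-- `t`-numbers. -/
def qn (t : K) (n : ℕ) : K := ∑ j ∈ Finset.range n, t ^ j

@[simp] theorem qn_zero : qn t 0 = 0 := by simp [qn]

theorem qn_succ (n : ℕ) : qn t (n + 1) = qn t n + t ^ n := by
  simp [qn, Finset.sum_range_succ]

theorem qn_succ' (n : ℕ) : qn t (n + 1) = t * qn t n + 1 := by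
  induction n with
  | zero => simp [qn]
  | succ n ih =>
    have h1 := qn_succ (t := t) (n + 1)
    have h2 := qn_succ (t := t) n
    rw [h1]
    conv_rhs => rw [h2]
    rw [ih]; ring

theorem qn_ne_zero (hn : ∀ n : ℕ, 0 < n → t ^ n ≠ 1) (n : ℕ) : qn t (n + 1) ≠ 0 := by
  intro h
  have h2 := geom_sum_mul t (n + 1)
  rw [show ∑ i ∈ Finset.range (n + 1), t ^ i = qn t (n + 1) from rfl, h, zero_mul] at h2
  exact hn (n + 1) (Nat.succ_pos _) (sub_eq_zero.mp h2.symm)

theorem zpow_eq_one (hn : ∀ n : ℕ, 0 < n → t ^ n ≠ 1) {z : ℤ} (h : t ^ z = 1) : z = 0 := by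
  rcases lt_trichotomy z 0 with hz | hz | hz
  · exfalso
    obtain ⟨n, hn'⟩ := Int.eq_ofNat_of_zero_le (a := -z) (by omega)
    have hz' : z = -(n : ℤ) := by omega
    subst hz'
    rw [zpow_neg, zpow_natCast, inv_eq_one] at h
    exact hn n (by omega) h
  · exact hz
  · exfalso
    obtain ⟨n, rfl⟩ := Int.eq_ofNat_of_zero_le (a := z) (by omega)
    rw [zpow_natCast] at h
    exact hn n (by omega) h

/-- The quantum adjoint action. -/
noncomputable def ad (i : Bool) : Module.End K (UT t) :=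
  LinearMap.mulLeft K (X i) - LinearMap.mulRight K (X i) ∘ₗ (kap i).toLinearMap

theorem ad_apply (i : Bool) (s : UT t) : ad i s = X i * s - kap i s * X i := by simp [ad]

theorem ad_mul (i : Bool) (s u : UT t) : ad i (s * u) = ad i s * u + kap i s * ad i u := by
  simp only [ad_apply, map_mul, sub_mul, mul_sub, mul_assoc]
  abel

theorem kap_ad (i : Bool) (s : UT t) : kap i (ad i s) = t • ad i (kap i s) := by
  simp only [ad_apply, map_mul, map_sub, kap_X, w_self, smul_sub, smul_mul_assoc, mul_smul_comm]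

theorem kap_ad_pow (i : Bool) (n : ℕ) (s : UT t) :
    kap i ((ad i ^ n) s) = t ^ n • (ad i ^ n) (kap i s) := by
  induction n generalizing s with
  | zero => simp
  | succ n ih =>
    rw [pow_succ, Module.End.mul_apply, ih, kap_ad, map_smul, smul_smul, Module.End.mul_apply,
      pow_succ]

theorem ad_pow_kap_zero (ht0 : t ≠ 0) (i : Bool) (n : ℕ) (s : UT t) (h : (ad i ^ n) s = 0) :
    (ad i ^ n) (kap i s) = 0 := by
  have h1 := kap_ad_pow i n s
  rw [h, map_zero] at h1
  rcases smul_eq_zero.mp h1.symm with h2 | h2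
  · exact absurd h2 (pow_ne_zero n ht0)
  · exact h2

theorem rr_ad (ht0 : t ≠ 0) (i : Bool) (s : UT t) (h : rr ht0 i s = 0) :
    rr ht0 i (ad i s) = 0 := by
  rw [ad_apply, map_sub, rr_X_mul, if_pos rfl, rr_mul, rr_kap, h]
  simp

theorem ll_ad (ht0 : t ≠ 0) (i : Bool) (s : UT t) :
    ll ht0 i (ad i s) = s - kap i (kap i s) + t • ad i (ll ht0 i s) := by
  rw [ad_apply, map_sub, ll_X_mul, if_pos rfl, ll_mul, ll_kap, ad_apply]
  simp only [ll_X_self, w_self, mul_one, smul_sub, smul_mul_assoc]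
  abel

theorem ad_pow_three (ht0 : t ≠ 0) (i : Bool) : (ad i ^ 3) (X (!i) : UT t) = 0 := by
  have hs := serre_expand (three K t) i
  simp only [pow_succ, pow_zero, one_mul, Module.End.mul_apply, ad_apply, map_sub, map_mul, kap_X,
    w_self, w_not, smul_mul_assoc, mul_smul_comm, smul_smul, mul_sub, sub_mul, mul_assoc, hs,
    map_smul, smul_sub]
  match_scalars <;> (try simp only [three]) <;> field_simp <;> ring

theorem ad_pow_mul (ht0 : t ≠ 0) (i : Bool) (n : ℕ) : ∀ (p r : ℕ) (s u : UT t), p + r = n →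
    (ad i ^ p) s = 0 → (ad i ^ r) u = 0 → (ad i ^ n) (s * u) = 0 := by
  induction n with
  | zero =>
    intro p r s u h hs hu
    have hp : p = 0 := by omega
    subst hp
    have : s = 0 := by simpa using hs
    simp [this]
  | succ n ih =>
    intro p r s u h hs hu
    rcases p with _ | p
    · have : s = 0 := by simpa using hs
      simp [this]
    rcases r with _ | r
    · have : u = 0 := by simpa using hu
      simp [this]
    rw [pow_succ, Module.End.mul_apply, ad_mul, map_add]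
    rw [ih p (r + 1) (ad i s) u (by omega) (by rwa [pow_succ, Module.End.mul_apply] at hs) hu,
      ih (p + 1) r (kap i s) (ad i u) (by omega) (ad_pow_kap_zero ht0 i _ _ hs)
        (by rwa [pow_succ, Module.End.mul_apply] at hu), add_zero]

/-- Elements killed by `r_i` on which `ad` is nilpotent. -/
def Nil (ht0 : t ≠ 0) (i : Bool) (s : UT t) : Prop := rr ht0 i s = 0 ∧ ∃ n, (ad i ^ n) s = 0

theorem Nil.zero (ht0 : t ≠ 0) (i : Bool) : Nil ht0 i (0 : UT t) := ⟨by simp, 0, by simp⟩

theorem Nil.one (ht0 : t ≠ 0) (i : Bool) : Nil ht0 i (1 : UT t) :=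
  ⟨by simp, 1, by simp [ad_apply]⟩

theorem Nil.X_not (ht0 : t ≠ 0) (i : Bool) : Nil ht0 i (X (!i) : UT t) :=
  ⟨by simp, 3, ad_pow_three ht0 i⟩

theorem Nil.mul {ht0 : t ≠ 0} {i : Bool} {s u : UT t} (hs : Nil ht0 i s) (hu : Nil ht0 i u) :
    Nil ht0 i (s * u) := by
  obtain ⟨h1, n, h2⟩ := hs
  obtain ⟨h3, m, h4⟩ := hu
  exact ⟨by rw [rr_mul, h1, h3]; simp, n + m, ad_pow_mul ht0 i (n + m) n m s u rfl h2 h4⟩

theorem ad_pow_zero_le (i : Bool) {n m : ℕ} (h : n ≤ m) {s : UT t} (hs : (ad i ^ n) s = 0) :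
    (ad i ^ m) s = 0 := by
  obtain ⟨k, rfl⟩ := Nat.exists_eq_add_of_le' h
  rw [pow_add, Module.End.mul_apply, hs, map_zero]

theorem Nil.add {ht0 : t ≠ 0} {i : Bool} {s u : UT t} (hs : Nil ht0 i s) (hu : Nil ht0 i u) :
    Nil ht0 i (s + u) := by
  obtain ⟨h1, n, h2⟩ := hs
  obtain ⟨h3, m, h4⟩ := hu
  refine ⟨by rw [map_add, h1, h3, add_zero], max n m, ?_⟩
  rw [map_add, ad_pow_zero_le i (le_max_left n m) h2, ad_pow_zero_le i (le_max_right n m) h4,
    add_zero]

theorem Nil.smul {ht0 : t ≠ 0} {i : Bool} {s : UT t} (r : K) (hs : Nil ht0 i s) :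
    Nil ht0 i (r • s) := by
  obtain ⟨h1, n, h2⟩ := hs
  exact ⟨by rw [map_smul, h1, smul_zero], n, by rw [map_smul, h2, smul_zero]⟩

theorem Nil.ad {ht0 : t ≠ 0} {i : Bool} {s : UT t} (hs : Nil ht0 i s) : Nil ht0 i (ad i s) := by
  obtain ⟨h1, n, h2⟩ := hs
  refine ⟨rr_ad ht0 i s h1, n, ?_⟩
  rw [← Module.End.mul_apply, ← pow_succ, pow_succ', Module.End.mul_apply, h2, map_zero]

theorem Nil.kap {ht0 : t ≠ 0} {i : Bool} {s : UT t} (hs : Nil ht0 i s) : Nil ht0 i (kap i s) := by
  obtain ⟨h1, n, h2⟩ := hs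
  exact ⟨by rw [rr_kap, h1]; simp, n, ad_pow_kap_zero ht0 i n s h2⟩

/-- `u = ∑_{k<d} s_k X_i^k` with `s_k` in `Nil`. -/
inductive Rep (ht0 : t ≠ 0) (i : Bool) : ℕ → UT t → Prop
  | zero : Rep ht0 i 0 0
  | succ (d : ℕ) (u s : UT t) : Rep ht0 i d u → Nil ht0 i s → Rep ht0 i (d + 1) (u + s * X i ^ d)

theorem Rep.mono {ht0 : t ≠ 0} {i : Bool} {d : ℕ} {u : UT t} (h : Rep ht0 i d u) :
    Rep ht0 i (d + 1) u := by
  have := Rep.succ d u 0 h (Nil.zero ht0 i)
  simpa using this

theorem Rep.mono_le {ht0 : t ≠ 0} {i : Bool} {d d' : ℕ} {u : UT t} (h : Rep ht0 i d u)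
    (hd : d ≤ d') : Rep ht0 i d' u := by
  obtain ⟨k, rfl⟩ := Nat.exists_eq_add_of_le hd
  clear hd
  induction k with
  | zero => exact h
  | succ k ih => exact ih.mono

theorem Rep.zero' {ht0 : t ≠ 0} {i : Bool} (d : ℕ) : Rep ht0 i d (0 : UT t) :=
  Rep.zero.mono_le (Nat.zero_le _)

theorem Rep.single {ht0 : t ≠ 0} {i : Bool} {s : UT t} (hs : Nil ht0 i s) (d : ℕ) :
    Rep ht0 i (d + 1) (s * X i ^ d) := by
  have := Rep.succ d 0 s (Rep.zero' d) hs
  simpa using this

theorem Rep.add {ht0 : t ≠ 0} {i : Bool} {d : ℕ} {u v : UT t} (hu : Rep ht0 i d u)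
    (hv : Rep ht0 i d v) : Rep ht0 i d (u + v) := by
  induction d generalizing u v with
  | zero =>
    cases hu; cases hv
    simpa using (Rep.zero : Rep ht0 i 0 (0 : UT t))
  | succ d ih =>
    cases hu with
    | succ _ u s hu hs =>
      cases hv with
      | succ _ v s' hv hs' =>
        have := Rep.succ d (u + v) (s + s') (ih hu hv) (hs.add hs')
        have h2 : u + s * X i ^ d + (v + s' * X i ^ d) = u + v + (s + s') * X i ^ d := by
          rw [add_mul]; abel
        rw [h2]; exact this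

theorem Rep.smul {ht0 : t ≠ 0} {i : Bool} {d : ℕ} {u : UT t} (r : K) (hu : Rep ht0 i d u) :
    Rep ht0 i d (r • u) := by
  induction hu with
  | zero => simpa using (Rep.zero : Rep ht0 i 0 (0 : UT t))
  | succ d u s hu hs ih =>
    rw [smul_add, ← smul_mul_assoc]
    exact Rep.succ _ _ _ ih (hs.smul r)

theorem Rep.X_mul {ht0 : t ≠ 0} {i : Bool} {d : ℕ} {u : UT t} (hu : Rep ht0 i d u) :
    Rep ht0 i (d + 1) (X i * u) := by
  induction hu with
  | zero => rw [mul_zero]; exact Rep.zero' _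
  | succ d u s hu hs ih =>
    have h1 : X i * (u + s * X i ^ d) = X i * u + (ad i s * X i ^ d + kap i s * X i ^ (d + 1)) := by
      rw [mul_add, ad_apply, pow_succ', sub_mul, mul_assoc, mul_assoc, sub_add_cancel]
    rw [h1]
    exact Rep.add ih.mono (Rep.add (Rep.single hs.ad d).mono (Rep.single hs.kap (d + 1)))

theorem Rep.X_not_mul {ht0 : t ≠ 0} {i : Bool} {d : ℕ} {u : UT t} (hu : Rep ht0 i d u) :
    Rep ht0 i d (X (!i) * u) := by
  induction hu with
  | zero => rw [mul_zero]; exact Rep.zero' _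
  | succ d u s hu hs ih =>
    rw [mul_add, ← mul_assoc]
    exact Rep.succ _ _ _ ih ((Nil.X_not ht0 i).mul hs)

theorem exists_rep (ht0 : t ≠ 0) (i : Bool) (u : UT t) : ∃ d, Rep ht0 i d u := by
  refine induction_left (P := fun u => ∃ d, Rep ht0 i d u) ?_ ?_ ?_ ?_ u
  · exact ⟨1, by simpa using Rep.single (Nil.one ht0 i) 0⟩
  · rintro j v ⟨d, hd⟩
    by_cases hij : j = i
    · subst hij; exact ⟨d + 1, hd.X_mul⟩
    · have : j = !i := by cases i <;> cases j <;> simp_all
      subst this; exact ⟨d, hd.X_not_mul⟩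
  · rintro u v ⟨d, hd⟩ ⟨d', hd'⟩
    exact ⟨max d d', (hd.mono_le (le_max_left _ _)).add (hd'.mono_le (le_max_right _ _))⟩
  · rintro r u ⟨d, hd⟩
    exact ⟨d, hd.smul r⟩

theorem rr_X_pow (ht0 : t ≠ 0) (i : Bool) (k : ℕ) :
    rr ht0 i (X i ^ (k + 1) : UT t) = qn t (k + 1) • X i ^ k := by
  induction k with
  | zero => simp [qn]
  | succ k ih =>
    rw [pow_succ', rr_X_mul, if_pos rfl, ih, map_pow, kap_X, w_self, smul_pow, mul_smul_comm,
      ← pow_succ', ← add_smul, ← qn_succ]

theorem rr_mul_X_pow (ht0 : t ≠ 0) (i : Bool) (k : ℕ) {s : UT t} (hs : rr ht0 i s = 0) :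
    rr ht0 i (s * X i ^ (k + 1)) = qn t (k + 1) • (s * X i ^ k) := by
  rw [rr_mul, hs, zero_mul, add_zero, rr_X_pow, mul_smul_comm]

/-- `t`-factorials. -/
def qf (t : K) : ℕ → K
  | 0 => 1
  | k + 1 => qn t (k + 1) * qf t k

theorem qf_ne_zero (hn : ∀ n : ℕ, 0 < n → t ^ n ≠ 1) (k : ℕ) : qf t k ≠ 0 := by
  induction k with
  | zero => simp [qf]
  | succ k ih => exact mul_ne_zero (qn_ne_zero hn k) ih

theorem rr_pow_mul_X_pow (ht0 : t ≠ 0) (i : Bool) (k : ℕ) {s : UT t} (hs : rr ht0 i s = 0) :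
    ((rr ht0 i : Module.End K (UT t)) ^ k) (s * X i ^ k) = qf t k • s := by
  induction k with
  | zero => simp [qf]
  | succ k ih =>
    rw [pow_succ, Module.End.mul_apply, rr_mul_X_pow ht0 i k hs, map_smul, ih, smul_smul, qf]

theorem Rep.rr_pow {ht0 : t ≠ 0} {i : Bool} {d : ℕ} {u : UT t} (hu : Rep ht0 i d u) :
    ((rr ht0 i : Module.End K (UT t)) ^ d) u = 0 := by
  induction hu with
  | zero => simp
  | succ d u s hu hs ih =>
    rw [pow_succ', Module.End.mul_apply, map_add, ih, zero_add, rr_pow_mul_X_pow ht0 i d hs.1,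
      map_smul, hs.1, smul_zero]

/-- Elements killed by `r_i` are `ad_i`-nilpotent. -/
theorem nil_of_rr (ht0 : t ≠ 0) (hn : ∀ n : ℕ, 0 < n → t ^ n ≠ 1) (i : Bool) {u : UT t}
    (hu : rr ht0 i u = 0) : Nil ht0 i u := by
  obtain ⟨d, hd⟩ := exists_rep ht0 i u
  induction d generalizing u with
  | zero => cases hd; exact Nil.zero ht0 i
  | succ d ih =>
    cases hd with
    | succ _ u s hu' hs =>
      rcases d with _ | d
      · cases hu'
        simpa using hs
      · have h1 : ((rr ht0 i : Module.End K (UT t)) ^ (d + 1)) (u + s * X i ^ (d + 1)) = 0 := by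
          rw [pow_succ, Module.End.mul_apply, hu, map_zero]
        rw [map_add, hu'.rr_pow, zero_add, rr_pow_mul_X_pow ht0 i (d + 1) hs.1] at h1
        have hs0 : s = 0 := by
          rcases smul_eq_zero.mp h1 with h2 | h2
          · exact absurd h2 (qf_ne_zero hn _)
          · exact h2
        subst hs0
        rw [zero_mul, add_zero] at hu ⊢
        exact ih hu hu'

theorem ll_ad_pow (ht0 : t ≠ 0) (i : Bool) {u : UT t} {M : ℤ} (hk : kap i u = t ^ M • u)
    (hl : ll ht0 i u = 0) (n : ℕ) :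
    ll ht0 i ((ad i ^ (n + 1)) u) = (qn t (n + 1) * (1 - t ^ (2 * M + n))) • (ad i ^ n) u := by
  have hkn : ∀ n : ℕ, kap i ((ad i ^ n) u) = t ^ (M + n) • (ad i ^ n) u := by
    intro n
    rw [kap_ad_pow, hk, map_smul, smul_smul, zpow_add₀ ht0, zpow_natCast, mul_comm]
  induction n with
  | zero =>
    rw [zero_add, pow_one, ll_ad, hl, hk, map_smul, hk]
    simp only [map_zero, smul_zero, add_zero, smul_smul, ← zpow_add₀ ht0, pow_zero,
      Module.End.one_apply, qn, Finset.range_one, Finset.sum_singleton, one_mul, sub_smul,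
      one_smul, Nat.cast_zero, two_mul]
  | succ n ih =>
    rw [pow_succ', Module.End.mul_apply, ll_ad, ih, hkn, map_smul, hkn, map_smul,
      ← Module.End.mul_apply, ← pow_succ', smul_smul, smul_smul, ← zpow_add₀ ht0]
    have h1 : t ^ (M + ((n + 1 : ℕ) : ℤ) + (M + ((n + 1 : ℕ) : ℤ)))
        = t ^ (2 * M + n) * t * t ^ (n + 1) := by
      rw [← zpow_natCast, ← zpow_add_one₀ ht0, ← zpow_add₀ ht0]
      congr 1
      push_cast; ring
    have h2 : t ^ (2 * M + ((n + 1 : ℕ) : ℤ)) = t ^ (2 * M + n) * t := by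
      rw [← zpow_add_one₀ ht0]
      congr 1
      push_cast; ring
    rw [h1, h2, qn_succ (n + 1)]
    have h3 := qn_succ (t := t) (n + 1)
    have h4 := qn_succ' (t := t) (n + 1)
    have h5 : t ^ (n + 1) = t * qn t (n + 1) + 1 - qn t (n + 1) := by
      rw [← h4, h3]; ring
    match_scalars
    rw [h5]; ring

theorem primitive_weight (ht0 : t ≠ 0) (hn : ∀ n : ℕ, 0 < n → t ^ n ≠ 1) (i : Bool) {u : UT t}
    {M : ℤ} (hk : kap i u = t ^ M • u) (hr : rr ht0 i u = 0) (hl : ll ht0 i u = 0) (hu : u ≠ 0) :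
    M ≤ 0 := by
  classical
  obtain ⟨_, hex⟩ := nil_of_rr ht0 hn i hr
  have h0 : Nat.find hex ≠ 0 := by
    intro h
    have := Nat.find_spec hex
    rw [h] at this
    exact hu (by simpa using this)
  obtain ⟨n, hN⟩ := Nat.exists_eq_succ_of_ne_zero h0
  have h1 : (ad i ^ (n + 1)) u = 0 := by
    have := Nat.find_spec hex
    rwa [hN] at this
  have h2 : (ad i ^ n) u ≠ 0 := Nat.find_min hex (by omega)
  have h3 := ll_ad_pow ht0 i hk hl n
  rw [h1, map_zero] at h3
  rcases smul_eq_zero.mp h3.symm with h4 | h4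
  · rcases mul_eq_zero.mp h4 with h5 | h5
    · exact absurd h5 (qn_ne_zero hn n)
    · have := zpow_eq_one hn (sub_eq_zero.mp h5).symm
      omega
  · exact absurd h4 h2

/-- The common kernel of the right skew derivations is `K`. -/
theorem killed (ht0 : t ≠ 0) (hn : ∀ n : ℕ, 0 < n → t ^ n ≠ 1) (n : ℕ) :
    ∀ u : UT t, Fil n u → (∀ i, rr ht0 i u = 0) → u = algebraMap K _ (eps u) := by
  induction n with
  | zero =>
    intro u hu _
    rw [fil_zero hu rfl]; simp
  | succ n ih =>
    intro u hu hr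
    suffices h : ∀ m : Wt, m ≠ 0 → proj m u = 0 by
      rw [← sub_eq_zero]
      apply eq_zero_of_proj
      intro m
      rw [← proj_zero, map_sub, proj_proj]
      split_ifs with hm
      · subst hm; simp
      · rw [h m hm]; simp
    intro m hm
    by_contra hz0
    set z := proj m u with hz
    have hzF : Fil (n + 1) z := hu.proj m
    have hzr : ∀ i, rr ht0 i z = 0 := by
      intro i
      by_cases hmi : m i = 0
      · exact rr_proj_zero ht0 i hmi u
      · obtain ⟨m', rfl⟩ := exists_e_add hmi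
        rw [hz, ← proj_rr, hr i, map_zero]
    have hze : eps z = 0 := eps_proj hm u
    have hD : ∀ l : UT t →ₗ[K] K, DD ht0 l z = l 1 • z + l z • 1 := by
      intro l
      have h1 := ih (DD ht0 l z - l 1 • z) (hzF.DD ht0 l) (by
        intro i
        rw [map_sub, rr_DD, hzr i, map_zero, map_smul, hzr i, smul_zero, sub_zero])
      rw [map_sub, eps_DD, map_smul, hze, smul_zero, sub_zero] at h1
      rw [sub_eq_iff_eq_add.mp h1, Algebra.algebraMap_eq_smul_one, add_comm]
    have hDel : Del ht0 z = z ⊗ₜ 1 + 1 ⊗ₜ z := by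
      apply eq_of_EE
      intro l
      rw [map_add, EE_tmul, EE_tmul, add_comm]
      exact hD l
    have hS : SS ht0 z = - z := by
      have h1 := MS_Del_eq ht0 z
      rw [hDel, map_add, MS_tmul, MS_tmul, SS_one, hze, map_zero, mul_one, one_mul] at h1
      exact eq_neg_of_add_eq_zero_left h1
    have hSS : SS ht0 (SS ht0 z) = z := by rw [hS, map_neg, hS, neg_neg]
    have hf : fexp m = 0 := by
      have h1 := SS_SS_proj ht0 u m
      rw [← hz, hSS] at h1
      have h2 : (t ^ fexp m - 1) • z = 0 := by rw [sub_smul, one_smul, ← h1, sub_self]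
      rcases smul_eq_zero.mp h2 with h3 | h3
      · exact zpow_eq_one hn (sub_eq_zero.mp h3)
      · exact absurd h3 hz0
    have hl : ∀ i, ll ht0 i z = 0 := by
      intro i
      have h1 := ih (ll ht0 i z) (hzF.ll ht0 i) (by
        intro j
        rw [← ll_rr, hzr j, map_zero])
      rw [h1, eps_ll, hzr i]; simp
    have hM : ∀ i, ((m i : ℤ) - m (!i)) ≤ 0 := by
      intro i
      exact primitive_weight ht0 hn i (kap_proj ht0 i m u) (hzr i) (hl i) hz0
    have h1 := hM false
    have h2 := hM true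
    simp only [Bool.not_false, Bool.not_true] at h1 h2
    have h3 : m false = m true := by omega
    rw [fexp, h3] at hf
    apply hm
    ext i
    have : m true = 0 := by
      have : ((m true : ℤ) - m true) ^ 2 = 0 := by ring
      rw [this] at hf
      omega
    cases i
    · rw [h3, this]; rfl
    · rw [this]; rfl

theorem killed' (ht0 : t ≠ 0) (hn : ∀ n : ℕ, 0 < n → t ^ n ≠ 1) (u : UT t)
    (h : ∀ i, rr ht0 i u = 0) : u = algebraMap K _ (eps u) := by
  obtain ⟨n, hu⟩ := exists_fil u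
  exact killed ht0 hn n u hu h

theorem central_step (ht0 : t ≠ 0) (i : Bool) {y : UT t} {M : ℤ} (hk : kap i y = t ^ M • y)
    (hc : X i * y = y * X i) (k : ℕ) :
    X i * ((rr ht0 i : Module.End K (UT t)) ^ (k + 1)) y
      - t ^ (k + 1) • (((rr ht0 i : Module.End K (UT t)) ^ (k + 1)) y * X i)
      = (qn t (k + 1) * (1 - t ^ (M - k))) • ((rr ht0 i : Module.End K (UT t)) ^ k) y := by
  set R : Module.End K (UT t) := rr ht0 i with hR
  have hkk : ∀ k : ℕ, kap i ((R ^ k) y) = t ^ (M - k) • (R ^ k) y := by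
    intro k
    induction k with
    | zero => simp [hk]
    | succ k ih =>
      have h1 := rr_kap ht0 i i ((R ^ k) y)
      rw [ih, map_smul, w_self] at h1
      rw [pow_succ', Module.End.mul_apply]
      have h2 : kap i (R ((R ^ k) y)) = t⁻¹ • (t ^ (M - k) • R ((R ^ k) y)) := by
        rw [hR, h1, smul_smul, inv_mul_cancel₀ ht0, one_smul]
      rw [h2, smul_smul]
      congr 1
      rw [show (M - ((k + 1 : ℕ) : ℤ)) = -1 + (M - k) by push_cast; ring, zpow_add₀ ht0,
        zpow_neg_one]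
  have key : ∀ k : ℕ, ∀ a : K, R (X i * (R ^ k) y - t ^ k • ((R ^ k) y * X i)) = a • (R ^ k) y →
      X i * (R ^ (k + 1)) y - t ^ (k + 1) • ((R ^ (k + 1)) y * X i)
        = (a + t ^ k - t ^ (M - k)) • (R ^ k) y := by
    intro k a h
    rw [map_sub, map_smul, hR, rr_X_mul, if_pos rfl, rr_mul, ← hR, hkk] at h
    simp only [hR, rr_X_self, mul_one, kap_X, w_self] at h
    rw [← hR] at h
    rw [pow_succ', Module.End.mul_apply]
    rw [show (a + t ^ k - t ^ (M - k)) • (R ^ k) y
      = a • (R ^ k) y + (t ^ k - t ^ (M - k)) • (R ^ k) y by rw [← add_smul]; ring_nf, ← h]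
    simp only [mul_smul_comm, smul_add, smul_smul, sub_smul, pow_succ]
    abel
  induction k with
  | zero =>
    have h0 : R (X i * (R ^ 0) y - t ^ 0 • ((R ^ 0) y * X i)) = (0 : K) • (R ^ 0) y := by
      simp [hc]
    rw [key 0 0 h0]
    simp [qn]
  | succ k ih =>
    have h0 : R (X i * (R ^ (k + 1)) y - t ^ (k + 1) • ((R ^ (k + 1)) y * X i))
        = (qn t (k + 1) * (1 - t ^ (M - k))) • (R ^ (k + 1)) y := by
      rw [ih, map_smul, ← Module.End.mul_apply, ← pow_succ']
    rw [key (k + 1) _ h0]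
    congr 1
    have h1 : t ^ (M - (k : ℤ)) = t * t ^ (M - ((k + 1 : ℕ) : ℤ)) := by
      rw [show (M - (k : ℤ)) = 1 + (M - ((k + 1 : ℕ) : ℤ)) by push_cast; ring, zpow_add₀ ht0,
        zpow_one]
    rw [h1]
    have h3 := qn_succ (t := t) (k + 1)
    have h4 := qn_succ' (t := t) (k + 1)
    have h5 : t ^ (k + 1) = t * qn t (k + 1) + 1 - qn t (k + 1) := by
      rw [← h4, h3]; ring
    rw [h4, h5]
    ring

/-- An element commuting with both generators is a scalar. -/
theorem central_eq (ht0 : t ≠ 0) (hn : ∀ n : ℕ, 0 < n → t ^ n ≠ 1) (z : UT t)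
    (hz : ∀ i, X i * z = z * X i) : z = algebraMap K _ (eps z) := by
  suffices h : ∀ m : Wt, m ≠ 0 → proj m z = 0 by
    rw [← sub_eq_zero]
    apply eq_zero_of_proj
    intro m
    rw [← proj_zero, map_sub, proj_proj]
    split_ifs with hm
    · subst hm; simp
    · rw [h m hm]; simp
  intro m hm
  by_contra hy0
  set y := proj m z with hy
  have hc : ∀ i, X i * y = y * X i := by
    intro i
    rw [hy, ← proj_X_mul, ← proj_mul_X, hz i]
  have key : ∀ i, 0 ≤ ((m i : ℤ) - m (!i)) ∧ (((m i : ℤ) - m (!i)) = 0 → rr ht0 i y = 0) := by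
    intro i
    classical
    have hex : ∃ n, ((rr ht0 i : Module.End K (UT t)) ^ n) y = 0 := by
      refine ⟨m i + 1, ?_⟩
      rw [Module.End.pow_apply]
      exact rr_nilp ht0 i (m i) m z rfl
    have h0 : Nat.find hex ≠ 0 := by
      intro h
      have := Nat.find_spec hex
      rw [h] at this
      exact hy0 (by simpa using this)
    obtain ⟨n, hN⟩ := Nat.exists_eq_succ_of_ne_zero h0
    have h1 : ((rr ht0 i : Module.End K (UT t)) ^ (n + 1)) y = 0 := by
      have := Nat.find_spec hex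
      rwa [hN] at this
    have h2 : ((rr ht0 i : Module.End K (UT t)) ^ n) y ≠ 0 := Nat.find_min hex (by omega)
    have h3 := central_step ht0 i (kap_proj ht0 i m z) (hc i) n
    rw [← hy, h1, mul_zero, zero_mul, smul_zero, sub_zero] at h3
    have h4 : ((m i : ℤ) - m (!i)) - n = 0 := by
      rcases smul_eq_zero.mp h3.symm with h4 | h4
      · rcases mul_eq_zero.mp h4 with h5 | h5
        · exact absurd h5 (qn_ne_zero hn n)
        · exact zpow_eq_one hn (sub_eq_zero.mp h5).symm
      · exact absurd h4 h2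
    refine ⟨by omega, fun h => ?_⟩
    have : n = 0 := by omega
    subst this
    simpa using h1
  have h1 := (key false).1
  have h2 := (key true).1
  simp only [Bool.not_false, Bool.not_true] at h1 h2
  have hr : ∀ i, rr ht0 i y = 0 := by
    intro i
    apply (key i).2
    cases i <;> simp only [Bool.not_false, Bool.not_true] <;> omega
  have := killed' ht0 hn y hr
  rw [eps_proj hm z, map_zero] at this
  exact hy0 this

end Run7.h827.U
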