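import Pool.Agent.Run7.h827.UGrade

namespace Run7.h827.U

open TensorProduct

universe u v

set_option linter.all false
set_option linter.unusedSimpArgs false

variable {K : Type u} [Field K]

section abstract

variable {A : Type v} [Ring A] [Algebra K A]

/-- The q-Serre relation is compatible with the braided sum. -/
theorem serre_add {t : K} (ht : t ≠ 0) (a b p q : A)
    (h1 : serreExpr (three K t) a b = 0) (h2 : serreExpr (three K t) p q = 0)
    (hpa : p * a = t • (a * p)) (hpb : p * b = t⁻¹ • (b * p))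
    (hqa : q * a = t⁻¹ • (a * q)) (hqb : q * b = t • (b * q)) :
    serreExpr (three K t) (a + p) (b + q) = 0 := by
  have hpa' : ∀ z, p * (a * z) = t • (a * (p * z)) := fun z => by
    rw [← mul_assoc, hpa, smul_mul_assoc, mul_assoc]
  have hpb' : ∀ z, p * (b * z) = t⁻¹ • (b * (p * z)) := fun z => by
    rw [← mul_assoc, hpb, smul_mul_assoc, mul_assoc]
  have hqa' : ∀ z, q * (a * z) = t⁻¹ • (a * (q * z)) := fun z => by
    rw [← mul_assoc, hqa, smul_mul_assoc, mul_assoc]
  have hqb' : ∀ z, q * (b * z) = t • (b * (q * z)) := fun z => by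
    rw [← mul_assoc, hqb, smul_mul_assoc, mul_assoc]
  have h1' : a * (a * (a * b)) = three K t • (a * (a * (b * a))) - three K t • (a * (b * (a * a)))
      + b * (a * (a * a)) := by
    have hs := h1
    simp only [serreExpr, pow_succ, pow_zero, one_mul, mul_assoc] at hs
    rw [← sub_eq_zero.mp hs]
    abel
  have h2' : p * (p * (p * q)) = three K t • (p * (p * (q * p))) - three K t • (p * (q * (p * p)))
      + q * (p * (p * p)) := by
    have hs := h2
    simp only [serreExpr, pow_succ, pow_zero, one_mul, mul_assoc] at hs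
    rw [← sub_eq_zero.mp hs]
    abel
  simp only [serreExpr, pow_succ, pow_zero, one_mul, mul_assoc, add_mul, mul_add, hpa, hpb, hqa,
    hqb, hpa', hpb', hqa', hqb', smul_mul_assoc, mul_smul_comm, smul_add, smul_sub, smul_smul, h1',
    h2']
  match_scalars <;> (try simp only [three]) <;> field_simp <;> ring

end abstract

variable {t : K}

/-- `L_{X_j} ⊗ id`. -/
noncomputable def PP (j : Bool) : Module.End K (UT t ⊗[K] UT t) :=
  TensorProduct.map (LinearMap.mulLeft K (X j)) LinearMap.id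

/-- `κ_j ⊗ L_{X_j}`. -/
noncomputable def QQ (j : Bool) : Module.End K (UT t ⊗[K] UT t) :=
  TensorProduct.map (kap j).toLinearMap (LinearMap.mulLeft K (X j))

@[simp] theorem PP_tmul (j : Bool) (a b : UT t) : PP j (a ⊗ₜ[K] b) = (X j * a) ⊗ₜ b := by
  simp [PP]

@[simp] theorem QQ_tmul (j : Bool) (a b : UT t) : QQ j (a ⊗ₜ[K] b) = kap j a ⊗ₜ (X j * b) := by
  simp [QQ]

theorem QQ_PP (i j : Bool) : (QQ i : Module.End K (UT t ⊗[K] UT t)) * PP j
    = w t i j • (PP j * QQ i) := by
  apply TensorProduct.ext'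
  intro a b
  simp [smul_tmul']

theorem serre_PP (i : Bool) :
    serreExpr (three K t) (PP i : Module.End K (UT t ⊗[K] UT t)) (PP (!i)) = 0 := by
  apply TensorProduct.ext'
  intro a b
  have hs := congrArg (fun z => (z * a) ⊗ₜ[K] b) (serre (c := three K t) i)
  simp only [serreExpr, pow_succ, pow_zero, one_mul, add_mul, sub_mul, smul_mul_assoc, mul_assoc,
    TensorProduct.add_tmul, TensorProduct.sub_tmul, ← TensorProduct.smul_tmul', zero_mul,
    TensorProduct.zero_tmul] at hs
  simpa [serreExpr, pow_succ, mul_assoc] using hs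

theorem serre_QQ (ht0 : t ≠ 0) (i : Bool) :
    serreExpr (three K t) (QQ i : Module.End K (UT t ⊗[K] UT t)) (QQ (!i)) = 0 := by
  apply TensorProduct.ext'
  intro a b
  have hs := congrArg (fun z => (kap i (kap i (kap i (kap (!i) a)))) ⊗ₜ[K] (z * b))
    (serre (c := three K t) i)
  simp only [serreExpr, pow_succ, pow_zero, one_mul, add_mul, sub_mul, smul_mul_assoc, mul_assoc,
    TensorProduct.tmul_add, TensorProduct.tmul_sub, TensorProduct.tmul_smul, zero_mul,
    TensorProduct.tmul_zero] at hs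
  simpa [serreExpr, pow_succ, mul_assoc, kap_comm (!i) i] using hs

/-- The action of `U` on `U ⊗ U` through the braided coproduct. -/
noncomputable def rho (ht0 : t ≠ 0) : UT t →ₐ[K] Module.End K (UT t ⊗[K] UT t) :=
  lift (fun j => PP j + QQ j) (by
    intro i
    refine serre_add ht0 _ _ _ _ (serre_PP i) (serre_QQ ht0 i) ?_ ?_ ?_ ?_
    · rw [QQ_PP, w_self]
    · rw [QQ_PP, w_not]
    · rw [QQ_PP, w_not']
    · rw [QQ_PP, w_self])

/-- The braided coproduct. -/
noncomputable def Del (ht0 : t ≠ 0) (u : UT t) : UT t ⊗[K] UT t := rho ht0 u (1 ⊗ₜ 1)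

theorem Del_one (ht0 : t ≠ 0) : Del ht0 (1 : UT t) = 1 ⊗ₜ 1 := by simp [Del]

theorem Del_X_mul (ht0 : t ≠ 0) (j : Bool) (u : UT t) :
    Del ht0 (X j * u) = PP j (Del ht0 u) + QQ j (Del ht0 u) := by
  simp [Del, rho]

theorem Del_add (ht0 : t ≠ 0) (u v : UT t) : Del ht0 (u + v) = Del ht0 u + Del ht0 v := by
  simp [Del]

theorem Del_smul (ht0 : t ≠ 0) (r : K) (u : UT t) : Del ht0 (r • u) = r • Del ht0 u := by
  simp [Del]

/-- Contraction of the first factor with a functional. -/
noncomputable def EE (l : UT t →ₗ[K] K) : UT t ⊗[K] UT t →ₗ[K] UT t :=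
  (TensorProduct.lid K (UT t)).toLinearMap ∘ₗ (LinearMap.rTensor (UT t) l)

@[simp] theorem EE_tmul (l : UT t →ₗ[K] K) (a b : UT t) : EE l (a ⊗ₜ[K] b) = l a • b := by
  simp [EE]

theorem EE_PP (l : UT t →ₗ[K] K) (j : Bool) (x : UT t ⊗[K] UT t) :
    EE l (PP j x) = EE (l ∘ₗ LinearMap.mulLeft K (X j)) x := by
  induction x using TensorProduct.induction_on with
  | zero => simp
  | tmul a b => simp
  | add x y hx hy => simp only [map_add, hx, hy]

theorem EE_QQ (l : UT t →ₗ[K] K) (j : Bool) (x : UT t ⊗[K] UT t) :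
    EE l (QQ j x) = X j * EE (l ∘ₗ (kap j).toLinearMap) x := by
  induction x using TensorProduct.induction_on with
  | zero => simp
  | tmul a b => simp
  | add x y hx hy => simp only [map_add, hx, hy, mul_add]

/-- `D_l = (l ⊗ id) Δ`. -/
noncomputable def DD (ht0 : t ≠ 0) (l : UT t →ₗ[K] K) : UT t →ₗ[K] UT t where
  toFun u := EE l (Del ht0 u)
  map_add' u v := by rw [Del_add, map_add]
  map_smul' r u := by rw [Del_smul, map_smul]; rfl

theorem DD_one (ht0 : t ≠ 0) (l : UT t →ₗ[K] K) : DD ht0 l 1 = l 1 • 1 := by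
  show EE l (Del ht0 1) = _
  rw [Del_one, EE_tmul]

theorem DD_X_mul (ht0 : t ≠ 0) (l : UT t →ₗ[K] K) (j : Bool) (u : UT t) :
    DD ht0 l (X j * u) = DD ht0 (l ∘ₗ LinearMap.mulLeft K (X j)) u
      + X j * DD ht0 (l ∘ₗ (kap j).toLinearMap) u := by
  show EE l (Del ht0 (X j * u)) = _
  rw [Del_X_mul, map_add, EE_PP, EE_QQ]
  rfl

theorem DD_smul_left (ht0 : t ≠ 0) (l : UT t →ₗ[K] K) (r : K) (u : UT t) :
    DD ht0 (r • l) u = r • DD ht0 l u := by
  show EE (r • l) (Del ht0 u) = r • EE l (Del ht0 u)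
  generalize Del ht0 u = x
  induction x using TensorProduct.induction_on with
  | zero => simp
  | tmul a b => simp [mul_smul]
  | add x y hx hy => simp only [map_add, hx, hy, smul_add]

/-- `Δ κ = (κ ⊗ κ) Δ`. -/
theorem DD_kap (ht0 : t ≠ 0) (i : Bool) (u : UT t) : ∀ l : UT t →ₗ[K] K,
    DD ht0 l (kap i u) = kap i (DD ht0 (l ∘ₗ (kap i).toLinearMap) u) := by
  refine induction_left (P := fun u => ∀ l : UT t →ₗ[K] K,
    DD ht0 l (kap i u) = kap i (DD ht0 (l ∘ₗ (kap i).toLinearMap) u)) ?_ ?_ ?_ ?_ u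
  · intro l
    rw [map_one, DD_one, DD_one]
    simp
  · intro j v hv l
    rw [map_mul, kap_X, smul_mul_assoc, map_smul, DD_X_mul, DD_X_mul, hv, hv, map_add, map_mul,
      kap_X, smul_add]
    congr 1
    · rw [← map_smul, ← DD_smul_left]
      congr 3
      ext z
      simp
    · rw [smul_mul_assoc]
      congr 3
      congr 2
      ext z
      simp [kap_comm i j]
  · intro u v hu hv l; simp only [map_add, hu, hv]
  · intro r u hu l; simp only [map_smul, hu]

/-- `(id ⊗ r_i) Δ = Δ r_i`. -/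
theorem rr_DD (ht0 : t ≠ 0) (i : Bool) (u : UT t) : ∀ l : UT t →ₗ[K] K,
    rr ht0 i (DD ht0 l u) = DD ht0 l (rr ht0 i u) := by
  refine induction_left (P := fun u => ∀ l : UT t →ₗ[K] K,
    rr ht0 i (DD ht0 l u) = DD ht0 l (rr ht0 i u)) ?_ ?_ ?_ ?_ u
  · intro l; rw [DD_one]; simp
  · intro j v hv l
    rw [DD_X_mul, map_add, hv, rr_X_mul, hv, rr_X_mul, map_add, DD_X_mul]
    split_ifs with h
    · subst h
      rw [DD_kap]
      abel
    · simp
  · intro u v hu hv l; simp only [map_add, hu, hv]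
  · intro r u hu l; simp only [map_smul, hu]

theorem eps_DD (ht0 : t ≠ 0) (u : UT t) : ∀ l : UT t →ₗ[K] K, eps (DD ht0 l u) = l u := by
  refine induction_left (P := fun u => ∀ l : UT t →ₗ[K] K, eps (DD ht0 l u) = l u) ?_ ?_ ?_ ?_ u
  · intro l; rw [DD_one]; simp
  · intro j v hv l
    rw [DD_X_mul, map_add, hv, map_mul, eps_X]
    simp
  · intro u v hu hv l; simp only [map_add, hu, hv]
  · intro r u hu l; simp only [map_smul, hu]

theorem Fil.DD (ht0 : t ≠ 0) {n : ℕ} {u : UT t} (h : Fil n u) :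
    ∀ l : UT t →ₗ[K] K, Fil (n - 1) (DD ht0 l u - l 1 • u) := by
  induction h with
  | zero n => intro l; simp; exact Fil.zero _
  | one n => intro l; rw [DD_one, sub_self]; exact Fil.zero _
  | X_mul n j v hv ih =>
    intro l
    cases n with
    | zero =>
      have := fil_zero hv rfl
      subst this
      simp; exact Fil.zero _
    | succ n =>
      simp only [Nat.add_sub_cancel] at ih ⊢
      rw [DD_X_mul]
      have h1 : U.DD ht0 (l ∘ₗ LinearMap.mulLeft K (X j)) v + X j * U.DD ht0 (l ∘ₗ (U.kap j).toLinearMap) v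
          - l 1 • (X j * v) = ((U.DD ht0 (l ∘ₗ LinearMap.mulLeft K (X j)) v
            - (l ∘ₗ LinearMap.mulLeft K (X j)) 1 • v) + (l ∘ₗ LinearMap.mulLeft K (X j)) 1 • v)
          + X j * (U.DD ht0 (l ∘ₗ (U.kap j).toLinearMap) v - (l ∘ₗ (U.kap j).toLinearMap) 1 • v) := by
        have : (l ∘ₗ (U.kap j).toLinearMap) 1 = l 1 := by simp
        rw [this, mul_sub, mul_smul_comm]
        abel
      rw [h1]
      refine Fil.add _ _ _ (Fil.add _ _ _ (ih _).mono (Fil.smul _ _ _ hv)) (Fil.X_mul _ _ _ (ih _))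
  | add n u v _ _ ihu ihv =>
    intro l
    have : U.DD ht0 l (u + v) - l 1 • (u + v) = (U.DD ht0 l u - l 1 • u) + (U.DD ht0 l v - l 1 • v) := by
      rw [map_add, smul_add]; abel
    rw [this]; exact Fil.add _ _ _ (ihu l) (ihv l)
  | smul n r u _ ih =>
    intro l
    have : U.DD ht0 l (r • u) - l 1 • (r • u) = r • (U.DD ht0 l u - l 1 • u) := by
      rw [map_smul, smul_sub, smul_comm]
    rw [this]; exact Fil.smul _ _ _ (ih l)

/-- Functionals separate points of `U ⊗ U` via the first factor. -/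
theorem eq_of_EE {x y : UT t ⊗[K] UT t} (h : ∀ l : UT t →ₗ[K] K, EE l x = EE l y) : x = y := by
  classical
  let b := Module.Basis.ofVectorSpace K (UT t)
  apply (TensorProduct.equivFinsuppOfBasisLeft b).injective
  refine Finsupp.ext fun i => ?_
  rw [TensorProduct.equivFinsuppOfBasisLeft_apply, TensorProduct.equivFinsuppOfBasisLeft_apply]
  exact h (b.coord i)

/-! ### The antipode -/

/-- The operator `s ↦ - κ_j(s) X_j`. -/
noncomputable def Xi (j : Bool) : Module.End K (UT t) :=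
  -(LinearMap.mulRight K (X j) ∘ₗ (kap j).toLinearMap)

@[simp] theorem Xi_apply (j : Bool) (s : UT t) : Xi j s = -(kap j s * X j) := by simp [Xi]

theorem serre_Xi (ht0 : t ≠ 0) (i : Bool) :
    serreExpr (three K t) (Xi i : Module.End K (UT t)) (Xi (!i)) = 0 := by
  apply LinearMap.ext
  intro a
  have hs := congrArg (fun z => kap i (kap i (kap i (kap (!i) a))) * z)
    (serre (c := three K t) i)
  simp only [serreExpr, pow_succ, pow_zero, one_mul, mul_add, mul_sub, mul_smul_comm, ← mul_assoc,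
    mul_zero] at hs
  simp [serreExpr, pow_succ, kap_comm (!i) i, smul_smul, ht0, ← mul_assoc]
  have hs' := congrArg Neg.neg hs
  rw [neg_zero] at hs'
  rw [← hs']
  abel

/-- The antipode, as an action. -/
noncomputable def sig (ht0 : t ≠ 0) : UT t →ₐ[K] Module.End K (UT t) :=
  lift Xi (serre_Xi ht0)

/-- The braided antipode. -/
noncomputable def SS (ht0 : t ≠ 0) : UT t →ₗ[K] UT t where
  toFun u := sig ht0 u 1
  map_add' u v := by simp
  map_smul' r u := by simp

theorem SS_one (ht0 : t ≠ 0) : SS ht0 (1 : UT t) = 1 := by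
  show sig ht0 1 1 = 1
  simp

theorem SS_X_mul (ht0 : t ≠ 0) (j : Bool) (u : UT t) :
    SS ht0 (X j * u) = -(kap j (SS ht0 u) * X j) := by
  show sig ht0 (X j * u) 1 = -(kap j (sig ht0 u 1) * X j)
  simp [sig]

theorem SS_kap (ht0 : t ≠ 0) (i : Bool) (u : UT t) : SS ht0 (kap i u) = kap i (SS ht0 u) := by
  refine induction_left (P := fun u => SS ht0 (kap i u) = kap i (SS ht0 u)) ?_ ?_ ?_ ?_ u
  · simp [SS_one]
  · intro j v hv
    rw [map_mul, kap_X, smul_mul_assoc, map_smul, SS_X_mul, hv, SS_X_mul]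
    simp [kap_comm i j]
  · intro u v hu hv; simp only [map_add, hu, hv]
  · intro r u hu; simp only [map_smul, hu]

theorem SS_mul_X (ht0 : t ≠ 0) (j : Bool) (u : UT t) :
    SS ht0 (u * X j) = -(X j * kap j (SS ht0 u)) := by
  refine induction_left (P := fun u => SS ht0 (u * X j) = -(X j * kap j (SS ht0 u))) ?_ ?_ ?_ ?_ u
  · have := SS_X_mul ht0 j (1 : UT t)
    rw [mul_one] at this
    simp [this, SS_one]
  · intro i v hv
    rw [mul_assoc, SS_X_mul, hv, SS_X_mul]
    simp [kap_comm i j, w_comm t i j, mul_assoc]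
  · intro u v hu hv; simp only [map_add, add_mul, hu, hv, mul_add, neg_add]
  · intro r u hu; simp only [map_smul, smul_mul_assoc, hu, mul_smul_comm, smul_neg]

theorem SS_SS_X_mul (ht0 : t ≠ 0) (j : Bool) (u : UT t) :
    SS ht0 (SS ht0 (X j * u)) = X j * kap j (kap j (SS ht0 (SS ht0 u))) := by
  rw [SS_X_mul, map_neg, SS_mul_X, neg_neg, SS_kap]

/-- The exponent of the square of the antipode. -/
def fexp (m : Wt) : ℤ := ((m false : ℤ) - m true) ^ 2 - (m false + m true)

theorem SS_SS_proj (ht0 : t ≠ 0) (u : UT t) (m : Wt) :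
    SS ht0 (SS ht0 (proj m u)) = t ^ (fexp m) • proj m u := by
  have key := hom_induction (c := three K t)
    (P := fun m v => SS ht0 (SS ht0 v) = t ^ (fexp m) • v ∧ proj m v = v) ?_ ?_ ?_ ?_ ?_ u m
  · exact key.1
  · intro m; simp
  · simp [SS_one, fexp]
  · rintro m j v ⟨h, hp⟩
    refine ⟨?_, by rw [proj_X_mul, hp]⟩
    have hk := kap_proj ht0 j m v
    rw [hp] at hk
    rw [SS_SS_X_mul, h, map_smul, map_smul, hk, map_smul, hk]
    simp only [mul_smul_comm, smul_smul, ← zpow_add₀ ht0]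
    congr 2
    cases j <;> simp [fexp, e] <;> ring
  · rintro m u v ⟨hu, hu'⟩ ⟨hv, hv'⟩
    refine ⟨by simp only [map_add, hu, hv, smul_add], by rw [map_add, hu', hv']⟩
  · rintro m r u ⟨hu, hu'⟩
    refine ⟨by rw [map_smul, map_smul, hu, smul_comm], by rw [map_smul, hu']⟩

/-- `m (S ⊗ id)`. -/
noncomputable def MS (ht0 : t ≠ 0) : UT t ⊗[K] UT t →ₗ[K] UT t :=
  LinearMap.mul' K (UT t) ∘ₗ TensorProduct.map (SS ht0) LinearMap.id

@[simp] theorem MS_tmul (ht0 : t ≠ 0) (a b : UT t) : MS ht0 (a ⊗ₜ[K] b) = SS ht0 a * b := by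
  simp [MS]

theorem MS_Del (ht0 : t ≠ 0) (j : Bool) (x : UT t ⊗[K] UT t) :
    MS ht0 (PP j x + QQ j x) = 0 := by
  induction x using TensorProduct.induction_on with
  | zero => rw [map_zero, map_zero, add_zero, map_zero]
  | tmul a b =>
    rw [PP_tmul, QQ_tmul, map_add, MS_tmul, MS_tmul, SS_X_mul, SS_kap, neg_mul, mul_assoc,
      neg_add_cancel]
  | add x y hx hy =>
    have : PP j (x + y) + QQ j (x + y) = (PP j x + QQ j x) + (PP j y + QQ j y) := by
      simp only [map_add]; abel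
    rw [this, map_add, hx, hy, add_zero]

theorem MS_Del_eq (ht0 : t ≠ 0) (u : UT t) : MS ht0 (Del ht0 u) = algebraMap K _ (eps u) := by
  refine induction_left (P := fun u => MS ht0 (Del ht0 u) = algebraMap K _ (eps u)) ?_ ?_ ?_ ?_ u
  · simp [Del_one, SS_one]
  · intro j v _
    rw [Del_X_mul, MS_Del]
    simp
  · intro u v hu hv; simp only [Del_add, map_add, hu, hv]
  · intro r u hu
    rw [Del_smul, map_smul, hu, map_smul, smul_eq_mul, map_mul, Algebra.smul_def]

end Run7.h827.U
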