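import Pool.Agent.Run7.h827.UMaps

namespace Run7.h827.U

universe u v

set_option linter.all false
set_option linter.unusedSimpArgs false

variable {K : Type u} [Field K] {c : K}

/-- Weights. -/
abbrev Wt := Bool → ℕ

/-- The simple root `α_j`. -/
def e (j : Bool) : Wt := Pi.single j 1

@[simp] theorem e_self (j : Bool) : e j j = 1 := by simp [e]
@[simp] theorem e_not (j : Bool) : e j (!j) = 0 := by cases j <;> simp [e]
@[simp] theorem e_not' (j : Bool) : e (!j) j = 0 := by cases j <;> simp [e]

/-- The height. -/
def ht (m : Wt) : ℕ := m false + m true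

theorem ht_eq (m : Wt) (i : Bool) : ht m = m i + m (!i) := by
  cases i <;> simp [ht, add_comm]

@[simp] theorem ht_e_add (j : Bool) (m : Wt) : ht (e j + m) = ht m + 1 := by
  cases j <;> simp [ht, e] <;> ring

theorem exists_e_add {m : Wt} {j : Bool} (h : m j ≠ 0) : ∃ m', m = e j + m' := by
  refine ⟨fun k => m k - e j k, ?_⟩
  ext k
  by_cases hk : k = j
  · subst hk; simp; omega
  · have : k = !j := by cases k <;> cases j <;> simp_all
    subst this; simp

theorem e_add_ne {m : Wt} {j : Bool} (h : m j = 0) (d : Wt) : e j + d ≠ m := by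
  intro hh
  have := congrFun hh j
  simp at this
  omega

open AddMonoidAlgebra in
/-- The grading homomorphism. -/
noncomputable def G : U K c →ₐ[K] AddMonoidAlgebra (U K c) Wt :=
  lift (fun j => single (e j) (X j)) (by
    intro i
    have h1 : e i + e i + e i + e (!i) = e i + e i + e (!i) + e i := by abel
    have h2 : e i + e (!i) + (e i + e i) = e i + e i + e (!i) + e i := by abel
    have h3 : e (!i) + (e i + e i + e i) = e i + e i + e (!i) + e i := by abel
    have hs := serre (c := c) i
    simp only [serreExpr, pow_succ, pow_zero, one_mul, single_mul_single, smul_single, h1, h2, h3]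
      at hs ⊢
    rw [← single_sub, ← single_add, ← single_sub, hs, single_zero])

@[simp] theorem G_X (j : Bool) : G (X j : U K c) = AddMonoidAlgebra.single (e j) (X j) := by
  simp [G]

/-- The projection to weight `m`. -/
noncomputable def proj (m : Wt) : U K c →ₗ[K] U K c where
  toFun u := (G u).coeff m
  map_add' u v := by simp
  map_smul' r u := by simp

theorem proj_one (m : Wt) : proj m (1 : U K c) = if m = 0 then 1 else 0 := by
  show (G (1 : U K c)).coeff m = _
  rw [map_one, AddMonoidAlgebra.one_def, AddMonoidAlgebra.coeff_single, Finsupp.single_apply]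
  simp [eq_comm]

@[simp] theorem proj_zero_one : proj 0 (1 : U K c) = 1 := by simp [proj_one]

@[simp] theorem proj_X_mul (m : Wt) (j : Bool) (v : U K c) :
    proj (e j + m) (X j * v) = X j * proj m v := by
  show (G (X j * v)).coeff (e j + m) = X j * (G v).coeff m
  rw [map_mul, G_X, AddMonoidAlgebra.coeff_single_mul_add]

@[simp] theorem proj_mul_X (m : Wt) (j : Bool) (v : U K c) :
    proj (e j + m) (v * X j) = proj m v * X j := by
  show (G (v * X j)).coeff (e j + m) = (G v).coeff m * X j
  rw [map_mul, G_X, add_comm, AddMonoidAlgebra.coeff_mul_single_add]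

theorem proj_X_mul_zero {m : Wt} {j : Bool} (h : m j = 0) (v : U K c) :
    proj m (X j * v) = 0 := by
  show (G (X j * v)).coeff m = 0
  rw [map_mul, G_X, AddMonoidAlgebra.coeff_single_mul_of_forall_add_ne]
  exact e_add_ne h

/-- Homogeneous induction. -/
theorem hom_induction {P : Wt → U K c → Prop} (h0 : ∀ m, P m 0) (h1 : P 0 1)
    (hX : ∀ m j v, P m v → P (e j + m) (X j * v))
    (hadd : ∀ m u v, P m u → P m v → P m (u + v)) (hsmul : ∀ m (r : K) u, P m u → P m (r • u))
    (u : U K c) (m : Wt) : P m (proj m u) := by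
  revert m
  refine induction_left (P := fun u => ∀ m, P m (proj m u)) ?_ ?_ ?_ ?_ u
  · intro m
    rw [proj_one]
    split_ifs with h
    · rw [h]; exact h1
    · exact h0 m
  · intro j v hv m
    by_cases hm : m j = 0
    · rw [proj_X_mul_zero hm]; exact h0 m
    · obtain ⟨m', rfl⟩ := exists_e_add hm
      rw [proj_X_mul]
      exact hX _ _ _ (hv m')
  · intro u v hu hv m
    rw [map_add]
    exact hadd _ _ _ (hu m) (hv m)
  · intro r u hu m
    rw [map_smul]
    exact hsmul _ _ _ (hu m)

theorem G_proj (u : U K c) (m : Wt) : G (proj m u) = AddMonoidAlgebra.single m (proj m u) := by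
  refine hom_induction (P := fun m v => G v = AddMonoidAlgebra.single m v) ?_ ?_ ?_ ?_ ?_ u m
  · intro m; simp
  · simp [AddMonoidAlgebra.one_def]
  · intro m j v h
    rw [map_mul, h, G_X, AddMonoidAlgebra.single_mul_single]
  · intro m u v hu hv
    rw [map_add, hu, hv, AddMonoidAlgebra.single_add]
  · intro m r u hu
    rw [map_smul, hu, AddMonoidAlgebra.smul_single]

theorem proj_proj (u : U K c) (m m' : Wt) :
    proj m' (proj m u) = if m' = m then proj m u else 0 := by
  show (G (proj m u)).coeff m' = _
  rw [G_proj, AddMonoidAlgebra.coeff_single, Finsupp.single_apply]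
  simp [eq_comm]

@[simp] theorem proj_proj_self (u : U K c) (m : Wt) : proj m (proj m u) = proj m u := by
  simp [proj_proj]

theorem sum_single_mul (j : Bool) (x : AddMonoidAlgebra (U K c) Wt) :
    ((AddMonoidAlgebra.single (e j) (X j) * x).coeff.sum fun _ y => y) =
      X j * x.coeff.sum fun _ y => y := by
  induction x using AddMonoidAlgebra.induction_linear with
  | zero => simp
  | add x y hx hy =>
    rw [mul_add, AddMonoidAlgebra.coeff_add, AddMonoidAlgebra.coeff_add,
      Finsupp.sum_add_index' (by simp) (by simp), Finsupp.sum_add_index' (by simp) (by simp), hx, hy,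
      mul_add]
  | single m r =>
    rw [AddMonoidAlgebra.single_mul_single, AddMonoidAlgebra.coeff_single,
      AddMonoidAlgebra.coeff_single, Finsupp.sum_single_index rfl, Finsupp.sum_single_index rfl]

/-- An element is the (finite) sum of its homogeneous components. -/
theorem sum_proj (u : U K c) : (G u).coeff.sum (fun _ x => x) = u := by
  refine induction_left (P := fun u => (G u).coeff.sum (fun _ x => x) = u) ?_ ?_ ?_ ?_ u
  · simp [AddMonoidAlgebra.one_def]
  · intro j v hv
    rw [map_mul, G_X, sum_single_mul, hv]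
  · intro u v hu hv
    rw [map_add, AddMonoidAlgebra.coeff_add, Finsupp.sum_add_index' (by simp) (by simp), hu, hv]
  · intro r u hu
    rw [map_smul, AddMonoidAlgebra.coeff_smul, Finsupp.sum_smul_index' (by simp)]
    conv_rhs => rw [← hu]
    rw [Finsupp.smul_sum]

theorem eq_zero_of_proj {u : U K c} (h : ∀ m, proj m u = 0) : u = 0 := by
  have : (G u).coeff = 0 := by
    ext m
    exact h m
  rw [← sum_proj u, this]
  simp

theorem proj_zero (u : U K c) : proj 0 u = algebraMap K _ (eps u) := by
  refine induction_left (P := fun u => proj 0 u = algebraMap K _ (eps u)) ?_ ?_ ?_ ?_ u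
  · simp
  · intro j v _
    rw [proj_X_mul_zero (by simp)]
    simp
  · intro u v hu hv
    simp [hu, hv]
  · intro r u hu
    rw [map_smul, hu, map_smul, smul_eq_mul, map_mul, Algebra.smul_def]

theorem eps_proj {m : Wt} (hm : m ≠ 0) (u : U K c) : eps (proj m u) = 0 := by
  have h := proj_zero (proj m u)
  rw [proj_proj, if_neg (Ne.symm hm)] at h
  have h2 : Function.Injective (algebraMap K (U K c)) := by
    have : Function.LeftInverse (eps : U K c → K) (algebraMap K (U K c)) := fun r => by simp
    exact this.injective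
  exact h2 (by rw [← h]; simp)

variable {t : K}

theorem proj_kap (i : Bool) (m : Wt) (u : UT t) : proj m (kap i u) = kap i (proj m u) := by
  revert m
  refine induction_left (P := fun u => ∀ m, proj m (kap i u) = kap i (proj m u)) ?_ ?_ ?_ ?_ u
  · intro m
    rw [map_one, proj_one]
    split_ifs <;> simp
  · intro j v hv m
    rw [map_mul, kap_X, smul_mul_assoc, map_smul]
    by_cases hm : m j = 0
    · rw [proj_X_mul_zero hm, proj_X_mul_zero hm]; simp
    · obtain ⟨m', rfl⟩ := exists_e_add hm
      simp [hv]
  · intro u v hu hv m; simp [hu, hv]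
  · intro r u hu m; simp [hu]

theorem kap_proj (ht0 : t ≠ 0) (i : Bool) (m : Wt) (u : UT t) :
    kap i (proj m u) = (t ^ ((m i : ℤ) - m (!i))) • proj m u := by
  refine hom_induction (P := fun m v => kap i v = (t ^ ((m i : ℤ) - m (!i))) • v) ?_ ?_ ?_ ?_ ?_ u m
  · intro m; simp
  · simp
  · intro m j v h
    rw [map_mul, h, kap_X, smul_mul_assoc, mul_smul_comm, smul_smul]
    congr 1
    by_cases hij : j = i
    · subst hij
      simp only [w_self, Pi.add_apply, e_self, e_not]
      push_cast
      rw [show (1 : ℤ) + m j - (0 + m (!j)) = 1 + ((m j : ℤ) - m (!j)) by ring, zpow_add₀ ht0,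
        zpow_one]
    · have : j = !i := by cases i <;> cases j <;> simp_all
      subst this
      simp only [w_not, Pi.add_apply, e_self, e_not']
      push_cast
      rw [show (0 : ℤ) + m i - (1 + m (!i)) = (-1) + ((m i : ℤ) - m (!i)) by ring, zpow_add₀ ht0,
        zpow_neg_one]
  · intro m u v hu hv; rw [map_add, hu, hv, smul_add]
  · intro m r u hu; rw [map_smul, hu, smul_comm]

theorem rr_proj_zero (ht0 : t ≠ 0) (i : Bool) {m : Wt} (hm : m i = 0) (u : UT t) :
    rr ht0 i (proj m u) = 0 := by
  refine hom_induction (P := fun m v => m i = 0 → rr ht0 i v = 0) ?_ ?_ ?_ ?_ ?_ u m hm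
  · intro m _; simp
  · intro _; simp
  · intro m j v h hj
    have hij : i ≠ j := by
      rintro rfl
      simp at hj
    have hmi : m i = 0 := by
      have : (e j + m) i = e j i + m i := rfl
      omega
    rw [rr_X_mul, h hmi, if_neg hij]; simp
  · intro m u v hu hv h; rw [map_add, hu h, hv h, add_zero]
  · intro m r u hu h; rw [map_smul, hu h, smul_zero]

theorem proj_rr (ht0 : t ≠ 0) (i : Bool) (m : Wt) (u : UT t) :
    proj m (rr ht0 i u) = rr ht0 i (proj (e i + m) u) := by
  revert m
  refine induction_left (P := fun u => ∀ m, proj m (rr ht0 i u) = rr ht0 i (proj (e i + m) u))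
    ?_ ?_ ?_ ?_ u
  · intro m
    have : e i + m ≠ 0 := by
      intro h
      have := congrFun h i
      simp at this
    rw [rr_one, proj_one, if_neg this]; simp
  · intro j v hv m
    by_cases hij : i = j
    · subst hij
      rw [proj_X_mul, rr_X_mul, rr_X_mul, if_pos rfl, if_pos rfl, map_add, proj_kap]
      by_cases hm : m i = 0
      · rw [proj_X_mul_zero hm, rr_proj_zero ht0 i hm, mul_zero]
      · obtain ⟨m', rfl⟩ := exists_e_add hm
        rw [proj_X_mul, hv]
    · rw [rr_X_mul, if_neg hij, add_zero]
      by_cases hm : m j = 0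
      · have hm' : (e i + m) j = 0 := by
          have : j = !i := by cases i <;> cases j <;> simp_all
          subst this
          simpa using hm
        rw [proj_X_mul_zero hm, proj_X_mul_zero hm', map_zero]
      · obtain ⟨m', rfl⟩ := exists_e_add hm
        rw [proj_X_mul, hv, show e i + (e j + m') = e j + (e i + m') by abel, proj_X_mul, rr_X_mul,
          if_neg hij, add_zero]
  · intro u v hu hv m; simp [hu, hv]
  · intro r u hu m; simp [hu]

theorem rr_nilp (ht0 : t ≠ 0) (i : Bool) (n : ℕ) : ∀ (m : Wt) (u : UT t), m i = n →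
    ((rr ht0 i)^[n + 1]) (proj m u) = 0 := by
  induction n with
  | zero =>
    intro m u hm
    simpa using rr_proj_zero ht0 i hm u
  | succ n ih =>
    intro m u hm
    obtain ⟨m', rfl⟩ := exists_e_add (m := m) (j := i) (by omega)
    rw [Function.iterate_succ_apply, ← proj_rr]
    apply ih
    have : (e i + m') i = 1 + m' i := by simp
    omega

/-! ### The length filtration -/

/-- The span of words of length `< n`. -/
inductive Fil : ℕ → U K c → Prop
  | zero (n : ℕ) : Fil n 0
  | one (n : ℕ) : Fil (n + 1) 1
  | X_mul (n : ℕ) (j : Bool) (v : U K c) : Fil n v → Fil (n + 1) (X j * v)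
  | add (n : ℕ) (u v : U K c) : Fil n u → Fil n v → Fil n (u + v)
  | smul (n : ℕ) (r : K) (u : U K c) : Fil n u → Fil n (r • u)

theorem Fil.mono {n : ℕ} {u : U K c} (h : Fil n u) : Fil (n + 1) u := by
  induction h with
  | zero n => exact Fil.zero _
  | one n => exact Fil.one _
  | X_mul n j v _ ih => exact Fil.X_mul _ _ _ ih
  | add n u v _ _ ihu ihv => exact Fil.add _ _ _ ihu ihv
  | smul n r u _ ih => exact Fil.smul _ _ _ ih

theorem Fil.mono_add {n : ℕ} {u : U K c} (h : Fil n u) (k : ℕ) : Fil (n + k) u := by
  induction k with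
  | zero => exact h
  | succ k ih => exact ih.mono

theorem Fil.mono_le {n m : ℕ} {u : U K c} (h : Fil n u) (hnm : n ≤ m) : Fil m u := by
  obtain ⟨k, rfl⟩ := Nat.exists_eq_add_of_le hnm
  exact h.mono_add k

theorem fil_zero {n : ℕ} {u : U K c} (h : Fil n u) (hn : n = 0) : u = 0 := by
  induction h with
  | zero n => rfl
  | one n => omega
  | X_mul n j v _ ih => omega
  | add n u v _ _ ihu ihv => rw [ihu hn, ihv hn, add_zero]
  | smul n r u _ ih => rw [ih hn, smul_zero]

theorem exists_fil (u : U K c) : ∃ n, Fil n u := by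
  refine induction_left (P := fun u => ∃ n, Fil n u) ?_ ?_ ?_ ?_ u
  · exact ⟨1, Fil.one 0⟩
  · rintro j v ⟨n, hn⟩
    exact ⟨n + 1, Fil.X_mul _ _ _ hn⟩
  · rintro u v ⟨n, hn⟩ ⟨m, hm⟩
    exact ⟨max n m, Fil.add _ _ _ (hn.mono_le (le_max_left _ _)) (hm.mono_le (le_max_right _ _))⟩
  · rintro r u ⟨n, hn⟩
    exact ⟨n, Fil.smul _ _ _ hn⟩

theorem Fil.proj {n : ℕ} {u : U K c} (h : Fil n u) (m : Wt) : Fil n (proj m u) := by
  induction h generalizing m with
  | zero n => rw [map_zero]; exact Fil.zero _
  | one n =>
    rw [proj_one]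
    split_ifs
    · exact Fil.one _
    · exact Fil.zero _
  | X_mul n j v _ ih =>
    by_cases hm : m j = 0
    · rw [proj_X_mul_zero hm]; exact Fil.zero _
    · obtain ⟨m', rfl⟩ := exists_e_add hm
      rw [proj_X_mul]
      exact Fil.X_mul _ _ _ (ih m')
  | add n u v _ _ ihu ihv => rw [map_add]; exact Fil.add _ _ _ (ihu m) (ihv m)
  | smul n r u _ ih => rw [map_smul]; exact Fil.smul _ _ _ (ih m)

theorem Fil.kap {n : ℕ} {u : UT t} (h : Fil n u) (i : Bool) : Fil n (kap i u) := by
  induction h with
  | zero n => rw [map_zero]; exact Fil.zero _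
  | one n => rw [map_one]; exact Fil.one _
  | X_mul n j v _ ih =>
    rw [map_mul, kap_X, smul_mul_assoc]
    exact Fil.smul _ _ _ (Fil.X_mul _ _ _ ih)
  | add n u v _ _ ihu ihv => rw [map_add]; exact Fil.add _ _ _ ihu ihv
  | smul n r u _ ih => rw [map_smul]; exact Fil.smul _ _ _ ih

theorem Fil.ll (ht0 : t ≠ 0) {n : ℕ} {u : UT t} (h : Fil n u) (i : Bool) :
    Fil (n - 1) (ll ht0 i u) := by
  induction h with
  | zero n => rw [map_zero]; exact Fil.zero _
  | one n => rw [ll_one]; exact Fil.zero _
  | X_mul n j v hv ih =>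
    rw [ll_X_mul]
    refine Fil.add _ _ _ (Fil.smul _ _ _ ?_) ?_
    · cases n with
      | zero =>
        have := fil_zero hv rfl
        subst this
        rw [map_zero, mul_zero]; exact Fil.zero _
      | succ n =>
        simp only [Nat.add_sub_cancel] at ih ⊢
        exact Fil.X_mul _ _ _ ih
    · split_ifs
      · simpa using hv
      · exact Fil.zero _
  | add n u v _ _ ihu ihv => rw [map_add]; exact Fil.add _ _ _ ihu ihv
  | smul n r u _ ih => rw [map_smul]; exact Fil.smul _ _ _ ih

end Run7.h827.U
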