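import Pool.Agent.Run7.h827.UBasic

namespace Run7.h827.U

universe u v

set_option linter.all false
set_option linter.unusedSimpArgs false

section scaling

variable {K : Type u} [Field K] {c : K}

theorem serreExpr_smul {A : Type v} [Ring A] [Algebra K A] (c : K) (a b : A) (r s : K) :
    serreExpr c (r • a) (s • b) = (r ^ 3 * s) • serreExpr c a b := by
  simp only [serreExpr, smul_pow, smul_mul_assoc, mul_smul_comm, smul_sub, smul_add, smul_smul]
  module

/-- The scaling endomorphism `X j ↦ s j • X j`. -/
noncomputable def sc (s : Bool → K) : U K c →ₐ[K] U K c :=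
  lift (fun j => s j • X j) (by
    intro i
    rw [serreExpr_smul, serre, smul_zero])

@[simp] theorem sc_X (s : Bool → K) (j : Bool) : sc s (X j : U K c) = s j • X j := by
  simp [sc]

theorem sc_sc (s s' : Bool → K) (u : U K c) : sc s (sc s' u) = sc (fun j => s j * s' j) u := by
  have : ((sc s).comp (sc s')).toLinearMap = (sc (c := c) (fun j => s j * s' j)).toLinearMap := by
    apply linearMap_ext
    · simp
    · intro i v h
      simp only [AlgHom.toLinearMap_apply, AlgHom.comp_apply, map_mul, sc_X, map_smul] at h ⊢
      rw [h]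
      simp only [smul_mul_assoc, smul_smul]
      rw [mul_comm (s' i)]
  exact congrArg (fun f => f u) this

/-- The counit. -/
noncomputable def eps : U K c →ₐ[K] K :=
  lift (fun _ => 0) (by intro i; simp [serreExpr])

@[simp] theorem eps_X (j : Bool) : eps (X j : U K c) = 0 := by simp [eps]

end scaling

variable {K : Type u} [Field K] (t : K)

/-- The weight pairing `t ^ ((α_i, α_j)/2)`. -/
def w (i j : Bool) : K := if i = j then t else t⁻¹

@[simp] theorem w_self (i : Bool) : w t i i = t := by simp [w]
@[simp] theorem w_not (i : Bool) : w t i (!i) = t⁻¹ := by simp [w]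
@[simp] theorem w_not' (i : Bool) : w t (!i) i = t⁻¹ := by simp [w]
theorem w_comm (i j : Bool) : w t i j = w t j i := by simp [w, eq_comm]

/-- The algebra with `c = t + 1 + t⁻¹`. -/
abbrev UT := U K (three K t)

variable {t}

/-- The automorphism `κ_i`. -/
noncomputable def kap (i : Bool) : UT t →ₐ[K] UT t := sc (fun j => w t i j)

@[simp] theorem kap_X (i j : Bool) : kap i (X j : UT t) = w t i j • X j := by simp [kap]

theorem kap_comm (i j : Bool) (u : UT t) : kap i (kap j u) = kap j (kap i u) := by
  simp only [kap, sc_sc]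
  congr 2
  ext k
  rw [mul_comm]

theorem kap_kap_not (ht : t ≠ 0) (i : Bool) (u : UT t) : kap i (kap (!i) u) = u := by
  have h1 : (fun j => w t i j * w t (!i) j) = fun _ => (1 : K) := by
    ext j
    cases i <;> cases j <;> simp [w, ht]
  simp only [kap, sc_sc, h1]
  have : (sc (c := three K t) (fun _ => (1:K))).toLinearMap = LinearMap.id := by
    apply linearMap_ext
    · simp
    · intro i v h
      simp only [AlgHom.toLinearMap_apply, LinearMap.id_apply, map_mul, sc_X, one_smul] at h ⊢
      rw [h]
  exact congrArg (fun f => f u) this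

theorem serre_expand (c : K) (k : Bool) : (X k : U K c) * (X k * (X k * X (!k))) =
    c • (X k * (X k * (X (!k) * X k))) - c • (X k * (X (!k) * (X k * X k)))
      + X (!k) * (X k * (X k * X k)) := by
  have hs := serre (c := c) k
  simp only [serreExpr, pow_succ, pow_zero, one_mul, mul_assoc] at hs
  have := sub_eq_zero.mp hs
  rw [← this]
  abel

theorem serre_expand' (c : K) (k : Bool) : (X (!k) : U K c) * (X (!k) * (X (!k) * X k)) =
    c • (X (!k) * (X (!k) * (X k * X (!k)))) - c • (X (!k) * (X k * (X (!k) * X (!k))))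
      + X k * (X (!k) * (X (!k) * X (!k))) := by
  have := serre_expand c (!k)
  rwa [Bool.not_not] at this

/-- upper triangular matrices encoding the right skew derivation -/
theorem serre_r (ht : t ≠ 0) (i k : Bool) :
    serreExpr (three K t) (!![(X k : UT t), (if i = k then 1 else 0); 0, w t i k • X k])
      (!![(X (!k) : UT t), (if i = !k then 1 else 0); 0, w t i (!k) • X (!k)]) = 0 := by
  by_cases hik : i = k
  · subst hik
    simp only [serreExpr]
    apply Matrix.ext
    intro a b
    fin_cases a <;> fin_cases b <;>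
    simp [pow_succ, mul_assoc, serre_expand]
    all_goals try simp only [mul_assoc, add_mul, mul_add, smul_mul_assoc, mul_smul_comm, smul_add,
      smul_sub, smul_smul]
    all_goals match_scalars <;> (try simp only [three]) <;> field_simp <;> ring
  · have hik' : i = !k := by cases i <;> cases k <;> simp_all
    subst hik'
    simp only [serreExpr]
    apply Matrix.ext
    intro a b
    fin_cases a <;> fin_cases b <;>
    simp [pow_succ, mul_assoc, serre_expand]
    all_goals try simp only [mul_assoc, add_mul, mul_add, smul_mul_assoc, mul_smul_comm, smul_add,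
      smul_sub, smul_smul]
    all_goals match_scalars <;> (try simp only [three]) <;> field_simp <;> ring

/-- upper triangular matrices encoding the left skew derivation -/
theorem serre_l (ht : t ≠ 0) (i k : Bool) :
    serreExpr (three K t) (!![w t i k • (X k : UT t), (if i = k then 1 else 0); 0, X k])
      (!![w t i (!k) • (X (!k) : UT t), (if i = !k then 1 else 0); 0, X (!k)]) = 0 := by
  by_cases hik : i = k
  · subst hik
    simp only [serreExpr]
    apply Matrix.ext
    intro a b
    fin_cases a <;> fin_cases b <;>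
    simp [pow_succ, mul_assoc, serre_expand]
    all_goals try simp only [mul_assoc, add_mul, mul_add, smul_mul_assoc, mul_smul_comm, smul_add,
      smul_sub, smul_smul]
    all_goals match_scalars <;> (try simp only [three]) <;> field_simp <;> ring
  · have hik' : i = !k := by cases i <;> cases k <;> simp_all
    subst hik'
    simp only [serreExpr]
    apply Matrix.ext
    intro a b
    fin_cases a <;> fin_cases b <;>
    simp [pow_succ, mul_assoc, serre_expand]
    all_goals try simp only [mul_assoc, add_mul, mul_add, smul_mul_assoc, mul_smul_comm, smul_add,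
      smul_sub, smul_smul]
    all_goals match_scalars <;> (try simp only [three]) <;> field_simp <;> ring

/-- The algebra homomorphism `u ↦ !![u, r_i u; 0, κ_i u]`. -/
noncomputable def matR (ht : t ≠ 0) (i : Bool) : UT t →ₐ[K] Matrix (Fin 2) (Fin 2) (UT t) :=
  lift (fun k => !![(X k : UT t), (if i = k then 1 else 0); 0, w t i k • X k])
    (fun k => serre_r ht i k)

/-- The algebra homomorphism `u ↦ !![κ_i u, l_i u; 0, u]`. -/
noncomputable def matL (ht : t ≠ 0) (i : Bool) : UT t →ₐ[K] Matrix (Fin 2) (Fin 2) (UT t) :=
  lift (fun k => !![w t i k • (X k : UT t), (if i = k then 1 else 0); 0, X k])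
    (fun k => serre_l ht i k)

theorem mat_mul_00 (A B : Matrix (Fin 2) (Fin 2) (UT t)) :
    (A * B) 0 0 = A 0 0 * B 0 0 + A 0 1 * B 1 0 := by
  simp [Matrix.mul_apply, Fin.sum_univ_two]
theorem mat_mul_01 (A B : Matrix (Fin 2) (Fin 2) (UT t)) :
    (A * B) 0 1 = A 0 0 * B 0 1 + A 0 1 * B 1 1 := by
  simp [Matrix.mul_apply, Fin.sum_univ_two]
theorem mat_mul_10 (A B : Matrix (Fin 2) (Fin 2) (UT t)) :
    (A * B) 1 0 = A 1 0 * B 0 0 + A 1 1 * B 1 0 := by
  simp [Matrix.mul_apply, Fin.sum_univ_two]
theorem mat_mul_11 (A B : Matrix (Fin 2) (Fin 2) (UT t)) :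
    (A * B) 1 1 = A 1 0 * B 0 1 + A 1 1 * B 1 1 := by
  simp [Matrix.mul_apply, Fin.sum_univ_two]

theorem matR_X (ht : t ≠ 0) (i k : Bool) : matR ht i (X k) =
    !![(X k : UT t), (if i = k then 1 else 0); 0, w t i k • X k] := by simp [matR]

theorem matL_X (ht : t ≠ 0) (i k : Bool) : matL ht i (X k) =
    !![w t i k • (X k : UT t), (if i = k then 1 else 0); 0, X k] := by simp [matL]

theorem matR_diag (ht : t ≠ 0) (i : Bool) (u : UT t) :
    matR ht i u 0 0 = u ∧ matR ht i u 1 0 = 0 ∧ matR ht i u 1 1 = kap i u := by
  refine induction_left (P := fun u => matR ht i u 0 0 = u ∧ matR ht i u 1 0 = 0 ∧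
    matR ht i u 1 1 = kap i u) ?_ ?_ ?_ ?_ u
  · simp
  · rintro j v ⟨h1, h2, h3⟩
    rw [map_mul, map_mul, mat_mul_00, mat_mul_10, mat_mul_11, h1, h2, h3, matR_X]
    simp
  · rintro u v ⟨h1, h2, h3⟩ ⟨h1', h2', h3'⟩
    simp [h1, h2, h3, h1', h2', h3']
  · rintro r u ⟨h1, h2, h3⟩
    simp [h1, h2, h3]

theorem matL_diag (ht : t ≠ 0) (i : Bool) (u : UT t) :
    matL ht i u 0 0 = kap i u ∧ matL ht i u 1 0 = 0 ∧ matL ht i u 1 1 = u := by
  refine induction_left (P := fun u => matL ht i u 0 0 = kap i u ∧ matL ht i u 1 0 = 0 ∧
    matL ht i u 1 1 = u) ?_ ?_ ?_ ?_ u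
  · simp
  · rintro j v ⟨h1, h2, h3⟩
    rw [map_mul, map_mul, mat_mul_00, mat_mul_10, mat_mul_11, h1, h2, h3, matL_X]
    simp
  · rintro u v ⟨h1, h2, h3⟩ ⟨h1', h2', h3'⟩
    simp [h1, h2, h3, h1', h2', h3']
  · rintro r u ⟨h1, h2, h3⟩
    simp [h1, h2, h3]

/-- The right skew derivation. -/
noncomputable def rr (ht : t ≠ 0) (i : Bool) : UT t →ₗ[K] UT t where
  toFun u := matR ht i u 0 1
  map_add' u v := by simp
  map_smul' r u := by simp

/-- The left skew derivation. -/
noncomputable def ll (ht : t ≠ 0) (i : Bool) : UT t →ₗ[K] UT t where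
  toFun u := matL ht i u 0 1
  map_add' u v := by simp
  map_smul' r u := by simp

theorem rr_mul (ht : t ≠ 0) (i : Bool) (u v : UT t) :
    rr ht i (u * v) = u * rr ht i v + rr ht i u * kap i v := by
  show matR ht i (u * v) 0 1 = _
  rw [map_mul, mat_mul_01, (matR_diag ht i u).1, (matR_diag ht i v).2.2]
  rfl

theorem ll_mul (ht : t ≠ 0) (i : Bool) (u v : UT t) :
    ll ht i (u * v) = kap i u * ll ht i v + ll ht i u * v := by
  show matL ht i (u * v) 0 1 = _
  rw [map_mul, mat_mul_01, (matL_diag ht i u).1, (matL_diag ht i v).2.2]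
  rfl

@[simp] theorem rr_one (ht : t ≠ 0) (i : Bool) : rr ht i 1 = 0 := by
  show matR ht i 1 0 1 = 0
  simp

@[simp] theorem ll_one (ht : t ≠ 0) (i : Bool) : ll ht i 1 = 0 := by
  show matL ht i 1 0 1 = 0
  simp

theorem rr_X (ht : t ≠ 0) (i j : Bool) : rr ht i (X j) = if i = j then 1 else 0 := by
  show matR ht i (X j) 0 1 = _
  simp [matR_X]

theorem ll_X (ht : t ≠ 0) (i j : Bool) : ll ht i (X j) = if i = j then 1 else 0 := by
  show matL ht i (X j) 0 1 = _
  simp [matL_X]

@[simp] theorem rr_X_self (ht : t ≠ 0) (i : Bool) : rr ht i (X i) = 1 := by simp [rr_X]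
@[simp] theorem ll_X_self (ht : t ≠ 0) (i : Bool) : ll ht i (X i) = 1 := by simp [ll_X]
@[simp] theorem rr_X_not (ht : t ≠ 0) (i : Bool) : rr ht i (X (!i)) = 0 := by simp [rr_X]
@[simp] theorem ll_X_not (ht : t ≠ 0) (i : Bool) : ll ht i (X (!i)) = 0 := by simp [ll_X]

theorem rr_X_mul (ht : t ≠ 0) (i j : Bool) (v : UT t) :
    rr ht i (X j * v) = X j * rr ht i v + if i = j then kap i v else 0 := by
  rw [rr_mul, rr_X]; split_ifs <;> simp

theorem ll_X_mul (ht : t ≠ 0) (i j : Bool) (v : UT t) :
    ll ht i (X j * v) = w t i j • (X j * ll ht i v) + if i = j then v else 0 := by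
  rw [ll_mul, ll_X]; split_ifs <;> simp

/-- `r_i κ_j = t^{..} κ_j r_i`. -/
theorem rr_kap (ht : t ≠ 0) (i j : Bool) (u : UT t) :
    rr ht i (kap j u) = w t j i • kap j (rr ht i u) := by
  have : (rr ht i).comp (kap j).toLinearMap = w t j i • ((kap j).toLinearMap.comp (rr ht i)) := by
    apply linearMap_ext
    · simp
    · intro k v h
      simp only [LinearMap.comp_apply, AlgHom.toLinearMap_apply, LinearMap.smul_apply] at h ⊢
      rw [map_mul, kap_X, smul_mul_assoc, map_smul, rr_X_mul, rr_X_mul, h]
      split_ifs with hik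
      · subst hik
        simp only [map_add, map_mul, kap_X, smul_add, mul_smul_comm, smul_mul_assoc, kap_comm j i v]
        try module
      · simp only [map_add, map_mul, kap_X, smul_add, mul_smul_comm, smul_mul_assoc, map_zero]
        try module
  exact congrArg (fun f => f u) this

theorem ll_kap (ht : t ≠ 0) (i j : Bool) (u : UT t) :
    ll ht i (kap j u) = w t j i • kap j (ll ht i u) := by
  have : (ll ht i).comp (kap j).toLinearMap = w t j i • ((kap j).toLinearMap.comp (ll ht i)) := by
    apply linearMap_ext
    · simp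
    · intro k v h
      simp only [LinearMap.comp_apply, AlgHom.toLinearMap_apply, LinearMap.smul_apply] at h ⊢
      rw [map_mul, kap_X, smul_mul_assoc, map_smul, ll_X_mul, ll_X_mul, h]
      split_ifs with hik
      · subst hik
        simp only [map_add, map_mul, kap_X, smul_add, mul_smul_comm, smul_mul_assoc, map_smul]
        try module
      · simp only [map_add, map_mul, kap_X, smul_add, mul_smul_comm, smul_mul_assoc, map_zero,
          map_smul]
        try module
  exact congrArg (fun f => f u) this

/-- Left and right skew derivations commute. -/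
theorem ll_rr (ht : t ≠ 0) (i j : Bool) (u : UT t) :
    ll ht i (rr ht j u) = rr ht j (ll ht i u) := by
  have : (ll ht i).comp (rr ht j) = (rr ht j).comp (ll ht i) := by
    apply linearMap_ext
    · simp
    · intro k v h
      simp only [LinearMap.comp_apply] at h ⊢
      rw [rr_X_mul, ll_X_mul, map_add, ll_X_mul, h, map_add, map_smul, rr_X_mul]
      by_cases h1 : j = k <;> by_cases h2 : i = k
      · subst h1; subst h2
        simp only [if_true, ll_kap]
        module
      · subst h1
        simp only [if_true, if_neg h2, ll_kap, map_zero]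
        rw [w_comm t j i]
        module
      · subst h2
        simp only [if_true, if_neg h1, map_zero]
        module
      · simp only [if_neg h1, if_neg h2, map_zero]
        module
  exact congrArg (fun f => f u) this

theorem eps_ll (ht : t ≠ 0) (i : Bool) (u : UT t) : eps (ll ht i u) = eps (rr ht i u) := by
  have : (eps.toLinearMap).comp (ll ht i) = (eps.toLinearMap).comp (rr ht i) := by
    apply linearMap_ext
    · simp
    · intro k v h
      simp only [LinearMap.comp_apply, AlgHom.toLinearMap_apply] at h ⊢
      rw [rr_X_mul, ll_X_mul]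
      split_ifs with h1
      · subst h1
        simp only [map_add, map_smul, map_mul, eps_X, zero_mul, smul_zero, zero_add]
        have : (eps.toLinearMap).comp (kap (t := t) i).toLinearMap = eps.toLinearMap := by
          apply linearMap_ext
          · simp
          · intro k v h
            simp
        exact (congrArg (fun f => f v) this).symm
      · simp
  exact congrArg (fun f => f u) this

end Run7.h827.U
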